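import Pool.Agent.H43.TPC.EQV

/-!
# The complexity of recognising t-perfect graphs

`TPERF` is the set of the adjacency matrices (as binary words) of the t-perfect graphs, `P_I(G) = Q(G)`.
It is coNP-complete. Hence it is in NP if and only if NP = coNP, and in P if and only if P = NP.
-/

set_option autoImplicit false

namespace Pool.Agent.Results.MP_a08d88_lc.TPerfCoNPComplete

open Pool.Agent.H43.TP Pool.Agent.H83

/-- Recognising t-perfect graphs is coNP-complete; it is in NP iff NP = coNP, and in P iff P = NP. -/
theorem result :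
    CoNPComplete TPERF ∧
    (InNP TPERF ↔ ∀ L : Set (List Bool), InNP L ↔ InCoNP L) ∧
    (InP TPERF ↔ ∀ L : Set (List Bool), InP L ↔ InNP L) :=
  ⟨coNPComplete, inNP_iff_NP_eq_coNP, inP_iff_P_eq_NP⟩

end Pool.Agent.Results.MP_a08d88_lc.TPerfCoNPComplete
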